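import Pool.Agent.Lib.MP_23f460_nt.Local

/-!
The Euclidean property of `x_1^2 + ... + x_14^2 + ... + p x_n^2` over the dyadic rationals,
at the level of rational vectors.
-/

namespace Pool.Agent.Lib.MP_23f460_nt

/-- Diagonal form with integer coefficients on rational vectors. -/
def Q {ι : Type} [Fintype ι] (c : ι → ℤ) (x : ι → ℚ) : ℚ := ∑ i, (c i : ℚ) * x i ^ 2

/-- The associated bilinear form. -/
def B {ι : Type} [Fintype ι] (c : ι → ℤ) (x y : ι → ℚ) : ℚ := ∑ i, (c i : ℚ) * x i * y i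

/-- Rational numbers that visibly have canonical norm in `(0,1)`. -/
def Small (z : ℚ) : Prop :=
  ∃ m d i j : ℕ, Odd d ∧ 0 < m ∧ m < d ^ 2 ∧ z * 2 ^ j * (d : ℚ) ^ 2 = m * 2 ^ i

/-- There is an integral vector close to `x`. -/
def Good {ι : Type} [Fintype ι] (R : Subring ℚ) (c : ι → ℤ) (x : ι → ℚ) : Prop :=
  ∃ y : ι → ℚ, (∀ i, y i ∈ R) ∧ Small (Q c (x - y))

lemma common_den {ι : Type} [Fintype ι] (x : ι → ℚ) :
    ∃ (e d : ℕ) (a : ι → ℤ), Odd d ∧ ∀ i, x i * (2 ^ e * d) = a i := by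
  classical
  have hD : (∏ i, (x i).den) ≠ 0 := Finset.prod_ne_zero_iff.mpr fun i _ => (x i).den_nz
  obtain ⟨e, d, hd, hed⟩ := Nat.exists_eq_two_pow_mul_odd hD
  have : ∀ i, ∃ a : ℤ, x i * (2 ^ e * d) = a := by
    intro i
    obtain ⟨r, hr⟩ : (x i).den ∣ ∏ i, (x i).den := Finset.dvd_prod_of_mem _ (Finset.mem_univ i)
    refine ⟨(x i).num * r, ?_⟩
    have h1 : ((2 : ℚ) ^ e * d) = (x i).den * r := by
      have : ((2 ^ e * d : ℕ) : ℚ) = (((x i).den * r : ℕ) : ℚ) := by rw [← hed, hr]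
      push_cast at this
      exact this
    rw [h1, ← mul_assoc, Rat.mul_den_eq_num]
    push_cast
    ring
  choose a ha using this
  exact ⟨e, d, a, hd, ha⟩

section
variable {ι : Type} [Fintype ι] (R : Subring ℚ) (c : ι → ℤ)

/-- reflection in a vector of length two -/
def refl (u x : ι → ℚ) : ι → ℚ := fun i => x i - B c x u * u i

lemma Q_refl (u x : ι → ℚ) (hu : Q c u = 2) : Q c (refl c u x) = Q c x := by
  have : Q c (refl c u x) = Q c x - 2 * B c x u * B c x u + B c x u ^ 2 * Q c u := by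
    set b := B c x u with hb
    have h1 : Q c (refl c u x) = ∑ i, ((c i : ℚ) * x i ^ 2 - 2 * b * (c i * x i * u i)
        + b ^ 2 * (c i * u i ^ 2)) := by
      unfold Q refl
      exact Finset.sum_congr rfl fun i _ => by rw [← hb]; ring
    rw [h1, Finset.sum_add_distrib, Finset.sum_sub_distrib, ← Finset.mul_sum, ← Finset.mul_sum]
    rfl
  rw [this, hu]; ring

lemma B_sub (x y u : ι → ℚ) : B c (x - y) u = B c x u - B c y u := by
  unfold B
  rw [← Finset.sum_sub_distrib]
  exact Finset.sum_congr rfl fun i _ => by simp only [Pi.sub_apply]; ring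

lemma refl_sub (u x y : ι → ℚ) : refl c u (x - y) = refl c u x - refl c u y := by
  funext i
  simp only [refl, B_sub, Pi.sub_apply]
  ring

lemma refl_refl (u x : ι → ℚ) (hu : Q c u = 2) : refl c u (refl c u x) = x := by
  have : B c (refl c u x) u = B c x u - B c x u * Q c u := by
    set b := B c x u with hb
    have h1 : B c (refl c u x) u = ∑ i, ((c i : ℚ) * x i * u i - b * (c i * u i ^ 2)) := by
      unfold refl
      rw [← hb]
      unfold B
      exact Finset.sum_congr rfl fun i _ => by ring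
    rw [h1, Finset.sum_sub_distrib, ← Finset.mul_sum]
    rfl
  funext i
  show refl c u x i - B c (refl c u x) u * u i = x i
  rw [this, hu]
  simp only [refl]
  ring

lemma refl_mem (u x : ι → ℚ) (hu : ∀ i, u i ∈ R) (hx : ∀ i, x i ∈ R) (i : ι) :
    refl c u x i ∈ R := by
  unfold refl B
  refine R.sub_mem (hx i) (R.mul_mem (R.sum_mem fun j _ => ?_) (hu i))
  exact R.mul_mem (R.mul_mem (intCast_mem R _) (hx j)) (hu j)

lemma good_of_refl (u x : ι → ℚ) (hu : Q c u = 2) (huR : ∀ i, u i ∈ R)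
    (h : Good R c (refl c u x)) : Good R c x := by
  obtain ⟨y, hy, hs⟩ := h
  refine ⟨refl c u y, refl_mem R c u y huR hy, ?_⟩
  have : x - refl c u y = refl c u (refl c u x - y) := by
    rw [refl_sub, refl_refl c u x hu]
  rw [this, Q_refl c u _ hu]
  exact hs

lemma not_mem_refl (u x : ι → ℚ) (hu : Q c u = 2) (huR : ∀ i, u i ∈ R)
    (h : ¬ ∀ i, x i ∈ R) : ¬ ∀ i, refl c u x i ∈ R := by
  intro h'
  apply h
  intro i
  have := refl_mem R c u _ huR h' i
  rwa [refl_refl c u x hu] at this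

end

lemma sum_extend {ι κ M N : Type} [Fintype ι] [Fintype κ] [AddCommMonoid M] [Zero N]
    (g : κ → ι) (hg : Function.Injective g) (v : κ → N) (F : ι → N → M) (hF : ∀ i, F i 0 = 0) :
    ∑ i, F i (Function.extend g v 0 i) = ∑ j, F (g j) (v j) := by
  classical
  have h1 : ∑ j, F (g j) (v j) = ∑ i ∈ Finset.univ.image g, F i (Function.extend g v 0 i) := by
    rw [Finset.sum_image (fun a _ b _ h => hg h)]
    exact Finset.sum_congr rfl fun j _ => by rw [hg.extend_apply]
  rw [h1]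
  symm
  apply Finset.sum_subset (Finset.subset_univ _)
  intro i _ hi
  have : ¬ ∃ a, g a = i := by
    rintro ⟨a, rfl⟩
    exact hi (Finset.mem_image_of_mem _ (Finset.mem_univ a))
  rw [Function.extend_apply' _ _ _ this]
  exact hF i

section
variable {ι : Type} [Fintype ι] [DecidableEq ι] (R : Subring ℚ)
  (hR : ∀ x : ℚ, x ∈ R ↔ ∃ (k : ℕ) (m : ℤ), x * 2 ^ k = m) (c : ι → ℤ)
include hR

/-- One coordinate can be made integral by a reflection. -/
lemma kill (g : Fin 6 ⊕ Fin 4 → ι) (hg : Function.Injective g) (hcg : ∀ j, c (g j) = 1)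
    (j₀ : ι) (hj₀ : ∀ j, g j ≠ j₀) (hc₀ : c j₀ = 1) (x : ι → ℚ) :
    ∃ u : ι → ℚ, Q c u = 2 ∧ (∀ i, u i ∈ R) ∧ refl c u x j₀ ∈ R ∧
      ∀ i, i ≠ j₀ → (∀ j, g j ≠ i) → refl c u x i = x i := by
  obtain ⟨e, d, a, hd, ha⟩ := common_den x
  obtain ⟨w, k, ⟨r, hr⟩, hw⟩ := ten (fun j => a (g j)) d hd
  set v : ι → ℚ := Function.extend g (fun j => (w j : ℚ) / 2 ^ k) 0 with hv
  have hv0 : ∀ i, (∀ j, g j ≠ i) → v i = 0 := by
    intro i hi
    rw [hv, Function.extend_apply' _ _ _ (by rintro ⟨j, hj⟩; exact hi j hj)]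
    rfl
  have hvR : ∀ i, v i ∈ R := by
    intro i
    by_cases hi : ∃ j, g j = i
    · obtain ⟨j, rfl⟩ := hi
      rw [hv, hg.extend_apply, hR]
      exact ⟨k, w j, by field_simp⟩
    · rw [hv0 i (fun j hj => hi ⟨j, hj⟩)]
      exact R.zero_mem
  have hQv : Q c v = 1 := by
    unfold Q
    rw [hv, sum_extend g hg _ (fun i t => (c i : ℚ) * t ^ 2) (by simp)]
    simp only [hcg, Int.cast_one, one_mul, div_pow]
    rw [← Finset.sum_div]
    have : ∑ j, (w j : ℚ) ^ 2 = 4 ^ k := by exact_mod_cast hw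
    rw [this, ← pow_mul, mul_comm, pow_mul]
    norm_num
  have hd0 : (d : ℚ) ≠ 0 := by exact_mod_cast hd.pos.ne'
  have hBv : B c x v ∈ R := by
    unfold B
    rw [hv, sum_extend g hg _ (fun i t => (c i : ℚ) * x i * t) (by simp)]
    simp only [hcg, Int.cast_one, one_mul]
    rw [hR]
    refine ⟨e + k, r, ?_⟩
    have h1 : ∑ j, (a (g j) : ℚ) * w j = d * r := by exact_mod_cast hr
    have h2 : (∑ j, x (g j) * ((w j : ℚ) / 2 ^ k)) * 2 ^ (e + k) * d = ∑ j, (a (g j) : ℚ) * w j := by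
      rw [Finset.sum_mul, Finset.sum_mul]
      refine Finset.sum_congr rfl fun j _ => ?_
      rw [← ha]
      field_simp
      ring
    rw [h1, mul_comm (d : ℚ)] at h2
    exact mul_right_cancel₀ hd0 h2
  set u : ι → ℚ := fun i => v i - if i = j₀ then 1 else 0 with hu
  have hvj : v j₀ = 0 := hv0 j₀ hj₀
  have hB : B c x u = B c x v - x j₀ := by
    have h1 : B c x u = ∑ i, ((c i : ℚ) * x i * v i - if i = j₀ then c i * x i else 0) := by
      unfold B
      refine Finset.sum_congr rfl fun i _ => ?_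
      simp only [hu]
      split_ifs <;> ring
    rw [h1, Finset.sum_sub_distrib]
    simp [B, hc₀]
  refine ⟨u, ?_, ?_, ?_, ?_⟩
  · have h1 : Q c u = ∑ i, ((c i : ℚ) * v i ^ 2 + if i = j₀ then (c i : ℚ) else 0) := by
      unfold Q
      refine Finset.sum_congr rfl fun i _ => ?_
      simp only [hu]
      split_ifs with h
      · subst h; rw [hvj]; ring
      · ring
    rw [h1, Finset.sum_add_distrib]
    have : ∑ i, (c i : ℚ) * v i ^ 2 = 1 := hQv
    rw [this]
    simp [hc₀]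
    norm_num
  · intro i
    simp only [hu]
    refine R.sub_mem (hvR i) ?_
    split_ifs
    · exact R.one_mem
    · exact R.zero_mem
  · have : refl c u x j₀ = B c x v := by
      have h2 : u j₀ = -1 := by simp [hu, hvj]
      unfold refl
      rw [hB, h2]
      ring
    rw [this]
    exact hBv
  · intro i hi hi'
    simp only [refl, hu, hv0 i hi', if_neg hi]
    simp

/-- If some vector in the class of `a` modulo `d` has length not divisible by `d^2`, and four
coordinates are integral, we win. -/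
lemma good_of_class (hc : ∀ i, 0 ≤ c i) (h : Fin 4 → ι) (hh : Function.Injective h)
    (hch : ∀ j, c (h j) = 1) (x : ι → ℚ) (e d : ℕ) (a : ι → ℤ) (hd : Odd d)
    (ha : ∀ i, x i * (2 ^ e * d) = a i) (hx : ∀ j, (d : ℤ) ∣ a (h j))
    (w : ι → ℤ) (hw : ∀ i, (d : ℤ) ∣ a i - w i) (hnd : ¬ (d : ℤ) ^ 2 ∣ ∑ i, c i * w i ^ 2) :
    Good R c x := by
  classical
  have hd0 : (0 : ℤ) < d := by exact_mod_cast hd.pos
  -- zero out the four coordinates
  set w' : ι → ℤ := fun i => if ∃ j, h j = i then 0 else w i with hw'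
  set S : ℤ := ∑ i, c i * w' i ^ 2 with hS
  have hS0 : 0 ≤ S := Finset.sum_nonneg fun i _ => mul_nonneg (hc i) (sq_nonneg _)
  have hdiff : (d : ℤ) ^ 2 ∣ ∑ i, c i * w i ^ 2 - S := by
    rw [hS, ← Finset.sum_sub_distrib]
    refine Finset.dvd_sum fun i _ => ?_
    simp only [hw']
    split_ifs with hi
    · obtain ⟨j, rfl⟩ := hi
      have h1 : (d : ℤ) ∣ w (h j) := by
        have := dvd_sub (hx j) (hw (h j))
        simpa using this
      have h2 := pow_dvd_pow_of_dvd h1 2
      simpa using Dvd.dvd.mul_left h2 (c (h j))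
    · simp
  have hSnd : ¬ (d : ℤ) ^ 2 ∣ S := by
    intro h1
    apply hnd
    have := dvd_add hdiff h1
    simpa using this
  have hd2 : (0 : ℤ) < (d : ℤ) ^ 2 := by positivity
  set m : ℤ := S % (d : ℤ) ^ 2 with hm
  have hm0 : 0 ≤ m := Int.emod_nonneg _ hd2.ne'
  have hmlt : m < (d : ℤ) ^ 2 := Int.emod_lt_of_pos _ hd2
  have hmne : m ≠ 0 := by
    intro h0
    exact hSnd (Int.dvd_of_emod_eq_zero (by rw [← hm, h0]))
  have hm1 : 1 ≤ m := by omega
  obtain ⟨k, hk, f, hf⟩ := exists_four_pow (d ^ 2) hd.pow S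
  have hSm : S = m + (d : ℤ) ^ 2 * (S / (d : ℤ) ^ 2) := by
    rw [hm]; exact (Int.emod_add_mul_ediv S _).symm
  set N : ℤ := m * f - S / (d : ℤ) ^ 2 with hN
  have hNeq : (d : ℤ) ^ 2 * N = m * 4 ^ k - S := by
    push_cast at hf
    rw [hN]
    linear_combination (-m) * hf + hSm
  have hN0 : 0 ≤ N := by
    by_contra hneg
    push Not at hneg
    have h1 : (d : ℤ) ^ 2 * N < 0 := mul_neg_of_pos_of_neg hd2 hneg
    have h2 : (4 : ℤ) ^ k ≤ m * 4 ^ k := le_mul_of_one_le_left (by positivity) hm1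
    linarith
  obtain ⟨t, ht⟩ := int_four_squares N hN0
  set z : ι → ℤ := Function.extend h (fun j => (d : ℤ) * t j) 0 with hz
  have hzw : ∀ i, z i * w' i = 0 := by
    intro i
    by_cases hi : ∃ j, h j = i
    · simp [hw', hi]
    · rw [hz, Function.extend_apply' _ _ _ hi]; simp
  have hzd : ∀ i, (d : ℤ) ∣ z i := by
    intro i
    by_cases hi : ∃ j, h j = i
    · obtain ⟨j, rfl⟩ := hi
      rw [hz, hh.extend_apply]
      exact Dvd.intro _ rfl
    · rw [hz, Function.extend_apply' _ _ _ hi]; simp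
  have hzs : ∑ i, c i * z i ^ 2 = (d : ℤ) ^ 2 * N := by
    rw [hz, sum_extend h hh _ (fun i t => c i * t ^ 2) (by simp), ← ht, Finset.mul_sum]
    exact Finset.sum_congr rfl fun j _ => by rw [hch]; ring
  have htot : ∑ i, c i * (w' i + z i) ^ 2 = m * 4 ^ k := by
    have : ∑ i, c i * (w' i + z i) ^ 2 = ∑ i, (c i * w' i ^ 2 + c i * z i ^ 2) := by
      refine Finset.sum_congr rfl fun i _ => ?_
      linear_combination 2 * c i * hzw i
    rw [this, Finset.sum_add_distrib, hzs, hNeq, ← hS]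
    ring
  have hdv : ∀ i, (d : ℤ) ∣ a i - (w' i + z i) := by
    intro i
    have h1 : (d : ℤ) ∣ a i - w' i := by
      simp only [hw']
      split_ifs with hi
      · obtain ⟨j, rfl⟩ := hi
        simpa using hx j
      · exact hw i
    have := dvd_sub h1 (hzd i)
    rwa [sub_sub] at this
  choose s hs using hdv
  have hdq : (d : ℚ) ≠ 0 := by exact_mod_cast hd.pos.ne'
  refine ⟨fun i => (s i : ℚ) / 2 ^ e, fun i => ?_, m.toNat, d, 2 * k, 2 * e, hd, by omega, ?_, ?_⟩
  · rw [hR]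
    exact ⟨e, s i, by field_simp⟩
  · have : ((m.toNat : ℕ) : ℤ) < ((d ^ 2 : ℕ) : ℤ) := by
      rw [Int.toNat_of_nonneg hm0]; push_cast; exact hmlt
    exact_mod_cast this
  · have h1 : ((m.toNat : ℕ) : ℚ) = (m : ℚ) := by
      have : ((m.toNat : ℕ) : ℤ) = m := Int.toNat_of_nonneg hm0
      exact_mod_cast this
    have h2 : ∑ i, (c i : ℚ) * ((w' i : ℚ) + z i) ^ 2 = m * 4 ^ k := by exact_mod_cast htot
    rw [h1, pow_mul (2 : ℚ) 2 k, show (2 : ℚ) ^ 2 = 4 by norm_num, ← h2]
    unfold Q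
    rw [Finset.sum_mul, Finset.sum_mul]
    refine Finset.sum_congr rfl fun i _ => ?_
    have h3 : (a i : ℚ) - ((w' i : ℚ) + z i) = d * s i := by exact_mod_cast hs i
    have h4 : (w' i : ℚ) + z i = (x i - (s i : ℚ) / 2 ^ e) * (2 ^ e * d) := by
      rw [sub_mul, ha]
      field_simp
      linear_combination (-1 : ℚ) * h3
    rw [h4]
    simp only [Pi.sub_apply]
    ring

/-- The case of four integral coordinates. -/
lemma good_of_four (hc : ∀ i, 0 ≤ c i) (h : Fin 4 → ι) (hh : Function.Injective h)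
    (hch : ∀ j, c (h j) = 1) (i₀ : ι) (hc1 : ∀ i, i ≠ i₀ → c i = 1) (hsq : Squarefree (c i₀))
    (x : ι → ℚ) (hxR : ¬ ∀ i, x i ∈ R) (hx : ∀ j, x (h j) ∈ R) : Good R c x := by
  obtain ⟨e, d, a, hd, ha⟩ := common_den x
  induction d using Nat.strong_induction_on generalizing a with
  | _ d ih =>
  have hdq : (d : ℚ) ≠ 0 := by exact_mod_cast hd.pos.ne'
  have hcop : IsCoprime (d : ℤ) 2 := by
    have : Nat.Coprime d 2 := Nat.coprime_two_right.mpr hd
    exact_mod_cast Nat.isCoprime_iff_coprime.mpr this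
  have hxd : ∀ j, (d : ℤ) ∣ a (h j) := by
    intro j
    obtain ⟨k, m, hkm⟩ := (hR _).mp (hx j)
    have h1 : (a (h j) : ℚ) * 2 ^ k = d * (m * 2 ^ e) := by
      rw [← ha, ← hkm]; ring
    have h2 : a (h j) * 2 ^ k = d * (m * 2 ^ e) := by exact_mod_cast h1
    exact (hcop.pow_right (n := k)).dvd_of_dvd_mul_right ⟨_, h2⟩
  by_cases hex : ∃ w : ι → ℤ, (∀ i, (d : ℤ) ∣ a i - w i) ∧ ¬ (d : ℤ) ^ 2 ∣ ∑ i, c i * w i ^ 2
  · obtain ⟨w, hw, hnd⟩ := hex
    exact good_of_class R hR c hc h hh hch x e d a hd ha hxd w hw hnd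
  · push Not at hex
    have hd1 : d ≠ 1 := by
      rintro rfl
      apply hxR
      intro i
      rw [hR]
      exact ⟨e, a i, by simpa using ha i⟩
    obtain ⟨l, hl, hld⟩ := Nat.exists_prime_and_dvd hd1
    have hp : Prime (l : ℤ) := Nat.prime_iff_prime_int.mp hl
    have hld' : (l : ℤ) ∣ d := by exact_mod_cast hld
    have h0 : (d : ℤ) ^ 2 ∣ ∑ i, c i * a i ^ 2 := hex a (by simp)
    have hd0 : (d : ℤ) ≠ 0 := by exact_mod_cast hd.pos.ne'
    have h1 : ∀ i, (d : ℤ) ∣ c i * a i := by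
      intro i
      have h2 := hex (fun j => a j + if j = i then (d : ℤ) else 0) (by
        intro j
        split_ifs <;> simp)
      have h3 : ∑ j, c j * (a j + if j = i then (d : ℤ) else 0) ^ 2
          = ∑ j, (c j * a j ^ 2 + if j = i then c i * (2 * d * a i + d ^ 2) else 0) := by
        refine Finset.sum_congr rfl fun j _ => ?_
        split_ifs with hj
        · subst hj; ring
        · ring
      rw [h3, Finset.sum_add_distrib] at h2
      simp only [Finset.sum_ite_eq', Finset.mem_univ, if_true] at h2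
      have h4 := (dvd_add_right h0).mp h2
      have h5 : (d : ℤ) * d ∣ d * (c i * a i * 2) := by
        have h6 : (d : ℤ) ^ 2 ∣ c i * (2 * d * a i + d ^ 2) - c i * d ^ 2 :=
          dvd_sub h4 (Dvd.intro_left _ rfl)
        rwa [show c i * (2 * d * a i + d ^ 2) - c i * d ^ 2 = d * (c i * a i * 2) by ring,
          pow_two] at h6
      exact hcop.dvd_of_dvd_mul_right ((mul_dvd_mul_iff_left hd0).mp h5)
    have h2 : ∀ i, i ≠ i₀ → (l : ℤ) ∣ a i := by
      intro i hi
      have := h1 i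
      rw [hc1 i hi, one_mul] at this
      exact hld'.trans this
    have h3 : (l : ℤ) ∣ a i₀ := by
      by_contra hn
      have h4 : (l : ℤ) ^ 2 ∣ ∑ i, c i * a i ^ 2 := (pow_dvd_pow_of_dvd hld' 2).trans h0
      rw [← Finset.add_sum_erase _ _ (Finset.mem_univ i₀)] at h4
      have h5 : (l : ℤ) ^ 2 ∣ ∑ i ∈ Finset.univ.erase i₀, c i * a i ^ 2 :=
        Finset.dvd_sum fun i hi =>
          Dvd.dvd.mul_left (pow_dvd_pow_of_dvd (h2 i (Finset.ne_of_mem_erase hi)) 2) _
      have h6 : (l : ℤ) ^ 2 ∣ c i₀ * a i₀ ^ 2 := (dvd_add_left h5).mp h4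
      have h7 : IsCoprime ((l : ℤ) ^ 2) (a i₀ ^ 2) :=
        ((hp.irreducible.coprime_iff_not_dvd).mpr hn).pow
      have h8 : (l : ℤ) * l ∣ c i₀ := by
        rw [← pow_two]; exact h7.dvd_of_dvd_mul_right h6
      exact hp.not_isUnit (hsq _ h8)
    have h4 : ∀ i, (l : ℤ) ∣ a i := fun i => by
      by_cases hi : i = i₀
      · rw [hi]; exact h3
      · exact h2 i hi
    choose a' ha' using h4
    obtain ⟨d', rfl⟩ := hld
    have hd' : Odd d' := (Nat.odd_mul.mp hd).2
    have hlq : (l : ℚ) ≠ 0 := by exact_mod_cast hl.ne_zero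
    refine ih d' ?_ a' hd' ?_
    · have := hl.two_le
      have := hd'.pos
      nlinarith
    · intro i
      have h5 := ha i
      rw [ha' i] at h5
      push_cast at h5
      apply mul_left_cancel₀ hlq
      linear_combination h5

/-- The Euclidean property. -/
theorem good_all (hc : ∀ i, 0 ≤ c i) (h : Fin 4 → ι) (hh : Function.Injective h)
    (hch : ∀ j, c (h j) = 1) (g : Fin 6 ⊕ Fin 4 → ι) (hg : Function.Injective g)
    (hcg : ∀ j, c (g j) = 1) (hgh : ∀ j k, g j ≠ h k)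
    (i₀ : ι) (hc1 : ∀ i, i ≠ i₀ → c i = 1) (hsq : Squarefree (c i₀))
    (x : ι → ℚ) (hxR : ¬ ∀ i, x i ∈ R) : Good R c x := by
  have key : ∀ s : Finset (Fin 4), ∀ x : ι → ℚ, (¬ ∀ i, x i ∈ R) →
      (∀ j, j ∉ s → x (h j) ∈ R) → Good R c x := by
    intro s
    induction s using Finset.induction_on with
    | empty =>
      intro x hxR hx
      exact good_of_four R hR c hc h hh hch i₀ hc1 hsq x hxR fun j => hx j (by simp)
    | insert k s hk ih =>
      intro x hxR hx
      obtain ⟨u, hu, huR, h1, h2⟩ := kill R hR c g hg hcg (h k) (fun j => hgh j k) (hch k) x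
      refine good_of_refl R c u x hu huR (ih _ (not_mem_refl R c u x hu huR hxR) ?_)
      intro j hj
      by_cases hjk : j = k
      · rw [hjk]; exact h1
      · rw [h2 (h j) (fun hh' => hjk (hh hh')) (fun j' => hgh j' j)]
        exact hx j (by simp [hjk, hj])
  exact key Finset.univ x hxR (by simp)

end

end Pool.Agent.Lib.MP_23f460_nt
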