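import Mathlib

/-!
Local lemmas: a vector orthogonal to a given integer vector whose length is a power of four.
-/

namespace Pool.Agent.Lib.MP_23f460_nt

open Polynomial

/-- In a block of three coordinates there is an orthogonal vector of length prime to `l`. -/
lemma block3 (l : ℕ) (hl : l.Prime) (hl2 : l ≠ 2) :
    ∀ (N : ℕ) (a b c : ℤ), a.natAbs + b.natAbs + c.natAbs ≤ N →
      ∃ x y z : ℤ, a * x + b * y + c * z = 0 ∧ ¬ (l : ℤ) ∣ x ^ 2 + y ^ 2 + z ^ 2 := by
  have hp : Prime (l : ℤ) := Nat.prime_iff_prime_int.mp hl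
  intro N
  induction N with
  | zero =>
    intro a b c h
    have ha : a = 0 := by omega
    have hb : b = 0 := by omega
    have hc : c = 0 := by omega
    refine ⟨1, 0, 0, by simp [ha], ?_⟩
    simpa using hp.not_dvd_one
  | succ N ih =>
    intro a b c h
    by_cases h1 : (l : ℤ) ∣ a ^ 2 + b ^ 2
    · by_cases h2 : (l : ℤ) ∣ a ^ 2 + c ^ 2
      · by_cases h3 : (l : ℤ) ∣ b ^ 2 + c ^ 2
        · have h2' : ¬ (l : ℤ) ∣ 2 := by
            intro h
            have : l ∣ 2 := by exact_mod_cast h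
            exact hl2 ((Nat.prime_dvd_prime_iff_eq hl Nat.prime_two).mp this)
          have key : ∀ t : ℤ, (l : ℤ) ∣ 2 * t ^ 2 → (l : ℤ) ∣ t := by
            intro t ht
            rcases hp.dvd_or_dvd ht with h | h
            · exact absurd h h2'
            · exact hp.dvd_of_dvd_pow h
          have ha : (l : ℤ) ∣ a := key a (by
            have := dvd_sub (dvd_add h1 h2) h3
            rwa [show a ^ 2 + b ^ 2 + (a ^ 2 + c ^ 2) - (b ^ 2 + c ^ 2) = 2 * a ^ 2 by ring] at this)
          have hb : (l : ℤ) ∣ b := key b (by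
            have := dvd_sub (dvd_add h1 h3) h2
            rwa [show a ^ 2 + b ^ 2 + (b ^ 2 + c ^ 2) - (a ^ 2 + c ^ 2) = 2 * b ^ 2 by ring] at this)
          have hc : (l : ℤ) ∣ c := key c (by
            have := dvd_sub (dvd_add h2 h3) h1
            rwa [show a ^ 2 + c ^ 2 + (b ^ 2 + c ^ 2) - (a ^ 2 + b ^ 2) = 2 * c ^ 2 by ring] at this)
          obtain ⟨a', rfl⟩ := ha
          obtain ⟨b', rfl⟩ := hb
          obtain ⟨c', rfl⟩ := hc
          by_cases h0 : a'.natAbs + b'.natAbs + c'.natAbs = 0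
          · have ha : a' = 0 := by omega
            have hb : b' = 0 := by omega
            have hc : c' = 0 := by omega
            refine ⟨1, 0, 0, by simp [ha], ?_⟩
            simpa using hp.not_dvd_one
          · have hle : a'.natAbs + b'.natAbs + c'.natAbs ≤ N := by
              simp only [Int.natAbs_mul, Int.natAbs_natCast] at h
              have h2l := hl.two_le
              nlinarith
            obtain ⟨x, y, z, hxyz, hn⟩ := ih a' b' c' hle
            refine ⟨x, y, z, ?_, hn⟩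
            linear_combination (l : ℤ) * hxyz
        · exact ⟨0, c, -b, by ring, by convert h3 using 2; ring⟩
      · exact ⟨c, 0, -a, by ring, by convert h2 using 2; ring⟩
    · exact ⟨b, -a, 0, by ring, by convert h1 using 2; ring⟩

/-- A binary form with unit coefficients represents `1` modulo an odd prime. -/
lemma binary_one (l : ℕ) (hl : l.Prime) (hl2 : l ≠ 2) (A B : ℤ) (hA : ¬ (l : ℤ) ∣ A)
    (hB : ¬ (l : ℤ) ∣ B) : ∃ s t : ℤ, (l : ℤ) ∣ A * s ^ 2 + B * t ^ 2 - 1 := by
  have : Fact l.Prime := ⟨hl⟩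
  have hA' : (A : ZMod l) ≠ 0 := by rwa [Ne, ZMod.intCast_zmod_eq_zero_iff_dvd]
  have hB' : (B : ZMod l) ≠ 0 := by rwa [Ne, ZMod.intCast_zmod_eq_zero_iff_dvd]
  have hf : degree (C (A : ZMod l) * X ^ 2 : (ZMod l)[X]) = 2 := degree_C_mul_X_pow 2 hA'
  have hg : degree (C (B : ZMod l) * X ^ 2 - C 1 : (ZMod l)[X]) = 2 := by
    rw [degree_sub_C (by rw [degree_C_mul_X_pow 2 hB']; norm_num), degree_C_mul_X_pow 2 hB']
    rfl
  have hodd : Fintype.card (ZMod l) % 2 = 1 := by
    rw [ZMod.card]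
    exact (hl.eq_two_or_odd).resolve_left hl2
  obtain ⟨a, b, hab⟩ := FiniteField.exists_root_sum_quadratic hf hg hodd
  obtain ⟨s, rfl⟩ := ZMod.intCast_surjective a
  obtain ⟨t, rfl⟩ := ZMod.intCast_surjective b
  refine ⟨s, t, ?_⟩
  rw [← ZMod.intCast_zmod_eq_zero_iff_dvd]
  push_cast
  simp only [eval_mul, eval_C, eval_pow, eval_X, eval_sub] at hab
  linear_combination hab

/-- Unit vector orthogonal to `a` modulo an odd prime. -/
lemma six_prime (l : ℕ) (hl : l.Prime) (hl2 : l ≠ 2) (a : Fin 6 → ℤ) :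
    ∃ u : Fin 6 → ℤ, ∑ i, a i * u i = 0 ∧ (l : ℤ) ∣ ∑ i, u i ^ 2 - 1 := by
  obtain ⟨x, y, z, h1, h1'⟩ := block3 l hl hl2 _ (a 0) (a 1) (a 2) le_rfl
  obtain ⟨x', y', z', h2, h2'⟩ := block3 l hl hl2 _ (a 3) (a 4) (a 5) le_rfl
  obtain ⟨s, t, hst⟩ := binary_one l hl hl2 _ _ h1' h2'
  refine ⟨![s * x, s * y, s * z, t * x', t * y', t * z'], ?_, ?_⟩
  · simp only [Fin.sum_univ_six]
    simp
    linear_combination s * h1 + t * h2
  · simp only [Fin.sum_univ_six]
    simp
    convert hst using 1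
    ring

/-- Unit vector orthogonal to `a` modulo any odd number. -/
lemma six_odd (a : Fin 6 → ℤ) : ∀ M : ℕ, Odd M →
    ∃ u : Fin 6 → ℤ, ∑ i, a i * u i = 0 ∧ (M : ℤ) ∣ ∑ i, u i ^ 2 - 1 := by
  intro M
  induction M using induction_on_primes with
  | zero => intro h; simp at h
  | one => intro _; exact ⟨0, by simp, by simp⟩
  | prime_mul p M hp ih =>
    intro hodd
    have hM : Odd M := (Nat.odd_mul.mp hodd).2
    have hpo : Odd p := (Nat.odd_mul.mp hodd).1
    have hp2 : p ≠ 2 := by rintro rfl; exact absurd hpo (by decide)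
    obtain ⟨u, hu, c, hc⟩ := ih hM
    by_cases hpM : p ∣ M
    · obtain ⟨k, hk⟩ := hpo
      obtain ⟨M', hM'⟩ := hpM
      refine ⟨fun i => (1 + M * (c * k)) * u i, ?_, ?_⟩
      · have : ∑ i, a i * ((1 + M * (c * k)) * u i) = (1 + M * (c * k)) * ∑ i, a i * u i := by
          rw [Finset.mul_sum]; exact Finset.sum_congr rfl fun i _ => by ring
        rw [this, hu, mul_zero]
      · have : ∑ i, ((1 + M * (c * k)) * u i) ^ 2 = (1 + M * (c * k)) ^ 2 * ∑ i, u i ^ 2 := by
          rw [Finset.mul_sum]; exact Finset.sum_congr rfl fun i _ => by ring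
        rw [this]
        have h1 : ∑ i, u i ^ 2 = 1 + M * c := by linear_combination hc
        rw [h1]
        have hpz : (p : ℤ) = 2 * k + 1 := by exact_mod_cast hk
        have hMz : (M : ℤ) = p * M' := by exact_mod_cast hM'
        refine ⟨c + M' * (2 * c * (c * k) + (c * k) ^ 2 + M * c * (c * k) ^ 2), ?_⟩
        push_cast
        have e1 : (M : ℤ) * c * (p : ℤ) = M * c * (2 * k + 1) := by rw [hpz]
        have e2 : (M : ℤ) * M = M * (p * M') := by rw [← hMz]
        linear_combination (-1 : ℤ) * e1 +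
          (2 * c * (c * k) + (c * k) ^ 2 + M * c * (c * k) ^ 2) * e2
    · obtain ⟨w, hw, e, he⟩ := six_prime p hp hp2 a
      have hcop : IsCoprime (p : ℤ) (M : ℤ) := by
        rw [Nat.isCoprime_iff_coprime]
        exact (Nat.Prime.coprime_iff_not_dvd hp).mpr hpM
      obtain ⟨r, s, hrs⟩ := hcop
      refine ⟨fun i => (r * p) * u i + (s * M) * w i, ?_, ?_⟩
      · have : ∑ i, a i * ((r * p) * u i + (s * M) * w i)
            = (r * p) * ∑ i, a i * u i + (s * M) * ∑ i, a i * w i := by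
          rw [Finset.mul_sum, Finset.mul_sum, ← Finset.sum_add_distrib]
          exact Finset.sum_congr rfl fun i _ => by ring
        rw [this, hu, hw]; simp
      · have : ∑ i, ((r * p) * u i + (s * M) * w i) ^ 2
            = (r * p) ^ 2 * ∑ i, u i ^ 2 + (s * M) ^ 2 * ∑ i, w i ^ 2
              + 2 * (r * p) * (s * M) * ∑ i, u i * w i := by
          rw [Finset.mul_sum, Finset.mul_sum, Finset.mul_sum, ← Finset.sum_add_distrib,
            ← Finset.sum_add_distrib]
          exact Finset.sum_congr rfl fun i _ => by ring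
        rw [this]
        have h1 : ∑ i, u i ^ 2 = 1 + M * c := by linear_combination hc
        have h2 : ∑ i, w i ^ 2 = 1 + p * e := by linear_combination he
        rw [h1, h2]
        refine ⟨r ^ 2 * p * c + s ^ 2 * M * e + 2 * r * s * (∑ i, u i * w i) - 2 * r * s, ?_⟩
        push_cast
        linear_combination (r * p + s * M + 1) * hrs

/-- Arbitrarily large powers of two that are `1` modulo an odd number, even exponent. -/
lemma exists_four_pow (M : ℕ) (hM : Odd M) (B : ℤ) :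
    ∃ k : ℕ, B ≤ 4 ^ k ∧ (M : ℤ) ∣ 4 ^ k - 1 := by
  have hcop : Nat.Coprime 4 M := by
    have : Nat.Coprime 2 M := Nat.coprime_two_left.mpr hM
    simpa using Nat.Coprime.pow_left 2 this
  have hM0 : 0 < M := hM.pos
  have h1 : 4 ^ (Nat.totient M) ≡ 1 [MOD M] := Nat.ModEq.pow_totient hcop
  have hphi : 0 < Nat.totient M := Nat.totient_pos.mpr hM0
  refine ⟨Nat.totient M * B.natAbs, ?_, ?_⟩
  · have h2 : B.natAbs ≤ Nat.totient M * B.natAbs := Nat.le_mul_of_pos_left _ hphi
    have h3 : Nat.totient M * B.natAbs < 4 ^ (Nat.totient M * B.natAbs) :=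
      Nat.lt_pow_self (by norm_num)
    have h4 : (B.natAbs : ℤ) ≤ 4 ^ (Nat.totient M * B.natAbs) := by exact_mod_cast (h2.trans h3.le)
    exact le_trans (Int.le_natAbs) h4
  · have h2 : 4 ^ (Nat.totient M * B.natAbs) ≡ 1 [MOD M] := by
      rw [pow_mul]
      simpa using h1.pow B.natAbs
    have h3 := (Nat.modEq_iff_dvd.mp h2.symm)
    simpa using h3

lemma int_four_squares (N : ℤ) (hN : 0 ≤ N) :
    ∃ t : Fin 4 → ℤ, ∑ i, t i ^ 2 = N := by
  obtain ⟨a, b, c, d, h⟩ := Nat.sum_four_squares N.toNat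
  refine ⟨![a, b, c, d], ?_⟩
  simp only [Fin.sum_univ_four]
  simp
  have : ((a ^ 2 + b ^ 2 + c ^ 2 + d ^ 2 : ℕ) : ℤ) = N := by rw [h]; exact Int.toNat_of_nonneg hN
  exact_mod_cast this

/-- An integer vector of length a power of four, orthogonal to `a` modulo `d`. -/
lemma ten (a : Fin 6 ⊕ Fin 4 → ℤ) (d : ℕ) (hd : Odd d) :
    ∃ (u : Fin 6 ⊕ Fin 4 → ℤ) (k : ℕ), (d : ℤ) ∣ ∑ i, a i * u i ∧ ∑ i, u i ^ 2 = 4 ^ k := by
  obtain ⟨u, hu, c, hc⟩ := six_odd (fun i => a (Sum.inl i)) (d ^ 2) hd.pow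
  obtain ⟨k, hk, e, he⟩ := exists_four_pow (d ^ 2) hd.pow (∑ i, u i ^ 2)
  have hd0 : (0 : ℤ) < d := by exact_mod_cast hd.pos
  have hN : 0 ≤ e - c := by
    have h1 : (4 : ℤ) ^ k - ∑ i, u i ^ 2 = (d : ℤ) ^ 2 * (e - c) := by
      push_cast at hc he
      linear_combination he - hc
    have h2 : 0 ≤ (d : ℤ) ^ 2 * (e - c) := by rw [← h1]; linarith
    exact nonneg_of_mul_nonneg_right h2 (by positivity) |> fun h => by
      by_contra hneg
      push Not at hneg
      have : (d : ℤ) ^ 2 * (e - c) < 0 := mul_neg_of_pos_of_neg (by positivity) hneg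
      linarith
  obtain ⟨t, ht⟩ := int_four_squares _ hN
  refine ⟨Sum.elim u (fun j => d * t j), k, ?_, ?_⟩
  · rw [Fintype.sum_sum_type]
    simp only [Sum.elim_inl, Sum.elim_inr]
    rw [hu, zero_add]
    exact Finset.dvd_sum fun j _ => ⟨a (Sum.inr j) * t j, by ring⟩
  · rw [Fintype.sum_sum_type]
    simp only [Sum.elim_inl, Sum.elim_inr]
    have : ∑ j, ((d : ℤ) * t j) ^ 2 = (d : ℤ) ^ 2 * ∑ j, t j ^ 2 := by
      rw [Finset.mul_sum]; exact Finset.sum_congr rfl fun i _ => by ring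
    rw [this, ht]
    push_cast at hc he
    linear_combination hc - he

end Pool.Agent.Lib.MP_23f460_nt
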